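import Pool.Agent.H188.NL.Final
import Pool.Agent.H188.NL.Occ

/-!
# The least number of occurrences of abelian squares in a binary word is at least `c n log n`

Write `F x` for the number of the other letters before the `(x + 1)`-st letter `b` (`b` a majority
letter). Windows of length `K ^ j` (`K = 2 ^ 48`) are called bad if many scales between
`K ^ (j - 1)` and `K ^ j` have an abelian square near the window; every bad window has at least
`K ^ (j - 1) / 100` occurrences (`bad_pairs`, `t_count`). In a good window the untouched scales
are convex on the left and concave on the right of a switching point (`t_switch`, `t_sign`), so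
the chord lemma (`t_chord`) shows that the largest second difference of `F` in an average window of
the next lower level is smaller by a factor of order `K ^ 2` (`t_local`, `t_block`, `t_tele`,
`good_contract`). The logarithm of the largest second difference is at most `log n` at the top and
at least `0` at the bottom, so at most `6 / 7` of all windows can be good (`t_log`, `t_hier`,
`main_bound`).
-/

set_option autoImplicit false

namespace Pool.Agent.Results.MP_309bba_co.LogLinear

open Filter

/-- Parikh vector of a binary word (`true` = a, `false` = b). -/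
def parikh (u : List Bool) : ℕ × ℕ := (u.count true, u.count false)

/-- The occurrences of abelian squares in `w`: the pairs `(i, j)` of positions (counted from `1`)
such that `w[i..j]` is a word `uv` with `u` nonempty and `P(u) = P(v)`. -/
def occ (w : List Bool) : Set (ℕ × ℕ) :=
  {p | ∃ x u v y : List Bool, w = x ++ (u ++ v) ++ y ∧ u ≠ [] ∧ parikh u = parikh v ∧
    p = (x.length + 1, x.length + (u ++ v).length)}

/-- `MTL(n)`: the least number of occurrences of abelian squares in a binary word of length `n`. -/
noncomputable def MTL (n : ℕ) : ℕ :=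
  sInf {k | ∃ w : List Bool, w.length = n ∧ (occ w).ncard = k}

theorem word_bound (w : List Bool) (hw : 2 ^ 628 ≤ w.length) :
    (w.length : ℝ) * Real.log w.length ≤ (2 : ℝ) ^ 130 * ((occ w).ncard : ℝ) :=
  H188.NL.word_bound H188.NL.t_occ w hw

theorem MTL_bound (n : ℕ) (hn : 2 ^ 628 ≤ n) :
    (n : ℝ) * Real.log n ≤ (2 : ℝ) ^ 130 * (MTL n : ℝ) := by
  have hne : {k | ∃ w : List Bool, w.length = n ∧ (occ w).ncard = k}.Nonempty :=
    ⟨_, List.replicate n true, by simp, rfl⟩
  obtain ⟨w, hw, hk⟩ := Nat.sInf_mem hne
  have h := word_bound w (by rw [hw]; exact hn)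
  rw [hk, hw] at h
  exact h

theorem bigO : (fun n : ℕ => (n : ℝ) * Real.log n) =O[atTop] (fun n : ℕ => (MTL n : ℝ)) := by
  refine Asymptotics.IsBigO.of_bound ((2 : ℝ) ^ 130) ?_
  filter_upwards [eventually_ge_atTop (2 ^ 628)] with n hn
  rw [Real.norm_of_nonneg (mul_nonneg (Nat.cast_nonneg _) (Real.log_natCast_nonneg n)),
    Real.norm_of_nonneg (Nat.cast_nonneg _)]
  exact MTL_bound n hn

/-- **The least number of occurrences of abelian squares in a binary word of length `n` is at
least `c n log n`.** Every binary word of length `n ≥ 2 ^ 628` has at least `n * log n / 2 ^ 130`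
occurrences of abelian squares, so `MTL(n) ≥ n * log n / 2 ^ 130` and `n log n = O(MTL(n))`. -/
theorem result :
    (∀ w : List Bool, 2 ^ 628 ≤ w.length →
      (w.length : ℝ) * Real.log w.length ≤ (2 : ℝ) ^ 130 * ((occ w).ncard : ℝ)) ∧
    (∀ n : ℕ, 2 ^ 628 ≤ n → (n : ℝ) * Real.log n ≤ (2 : ℝ) ^ 130 * (MTL n : ℝ)) ∧
    (fun n : ℕ => (n : ℝ) * Real.log n) =O[atTop] (fun n : ℕ => (MTL n : ℝ)) :=
  ⟨word_bound, MTL_bound, bigO⟩

end Pool.Agent.Results.MP_309bba_co.LogLinear
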