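import Pool.Agent.H188.UD.Asm
import Pool.Agent.H188.UD.Ap
import Pool.Agent.H188.UD.Mom
import Pool.Agent.H188.UD.Inc
import Pool.Agent.H188.UD.Cnt
import Pool.Agent.H188.UD.Bad
import Pool.Agent.H188.UD.Det
import Pool.Agent.H188.UD.Evs
import Pool.Agent.H188.UD.Avg
import Pool.Agent.H188.UD.Fin
import Pool.Agent.H188.UB.Wrd
import Pool.Agent.H188.UB.Trig
import Pool.Agent.H188.UB.Floor

/-!
# Binary words with at most `10^10 n log n (log log n)^2` occurrences of abelian squares

The number of letters `a` among the first `x` letters is the integer part of `x / 2 + f x + g x`.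
Here `f` is a small multiple of a smoothed version of the jump function
`F x = ∑ 3 ^ l [⌊x / 3 ^ l⌋ even]`, whose second differences with step `u` are at least `u / 2` in
absolute value everywhere (`t_ap`); every jump of height about `3 ^ l` is spread over `3 ^ (l - q)`
points with `3 ^ q` of order `log n` (`S_inc`, `S_mom`: few points are in more than `8 q` pulses).
For most `x` the smoothing does not change the second difference (`S_cnt`, `S_bad`, `S_det`).
`g` is a random combination of cosine and sine waves of all dyadic periods, small compared with `f`,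
which makes the second difference at the exceptional points spread over a large range (`S_avg2`).
-/

set_option autoImplicit false

namespace Pool.Agent.Results.MP_309bba_co.UpperLogLog

/-- Parikh vector of a binary word (`true` = a, `false` = b). -/
def parikh (u : List Bool) : ℕ × ℕ := (u.count true, u.count false)

/-- The occurrences of abelian squares in `w`: the pairs `(i, j)` of positions (counted from `1`)
such that `w[i..j]` is a word `uv` with `u` nonempty and `P(u) = P(v)`. -/
def occ (w : List Bool) : Set (ℕ × ℕ) :=
  {p | ∃ x u v y : List Bool, w = x ++ (u ++ v) ++ y ∧ u ≠ [] ∧ parikh u = parikh v ∧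
    p = (x.length + 1, x.length + (u ++ v).length)}

/-- `MTL(n)`: the least number of occurrences of abelian squares in a binary word of length `n`. -/
noncomputable def MTL (n : ℕ) : ℕ :=
  sInf {k | ∃ w : List Bool, w.length = n ∧ (occ w).ncard = k}

/-- **Upper bound for the least number of occurrences of abelian squares.** For every `n ≥ 16` some
binary word of length `n` has at most `10^10 n log n (log log n)^2` occurrences of abelian squares,
that is, `MTL(n) ≤ 10^10 n log n (log log n)^2`. -/
theorem result : ∀ n : ℕ, 16 ≤ n →
    (MTL n : ℝ) ≤ 10 ^ 10 * n * Real.log n * (Real.log (Real.log n)) ^ 2 := by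
  intro n hn
  have h5 := H188.UD.t_bad H188.UD.t_ap H188.UD.t_cnt
  obtain ⟨w, hw, h⟩ := H188.UD.upper H188.UB.t_wrd H188.UD.t_avg2 H188.UB.t_trig H188.UB.t_floor
    (H188.UD.t_det H188.UD.t_mom H188.UD.t_inc h5) H188.UD.t_evs H188.UD.t_fin n hn
  refine le_trans ?_ h
  have h1 : MTL n ≤ (occ w).ncard := Nat.sInf_le ⟨w, hw, rfl⟩
  exact_mod_cast h1

end Pool.Agent.Results.MP_309bba_co.UpperLogLog
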